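import Pool.Agent.Helper28.Sus.Goals

/-!
# Completeness of the edges
-/

namespace Pool.Agent.Helper8.Sus

open Pool.Agent.Helper65.LinSpace Pool.Agent.Helper78.Mpc Pool.Agent.Helper28.Ram
open Pool.Agent.Helper28.Sus Finset

/-- A computation from the time `s` on. -/
theorem run_shift (A : NBM) (g : ℕ → Bool) (c : List Bool × (List Bool → List Bool)) (s t : ℕ) :
    A.run (fun i => g (s + i)) (A.run g c s) t = A.run g c (s + t) := by
  induction t with
  | zero => rfl
  | succ t ih =>
    show A.step (g (s + t)) (A.run (fun i => g (s + i)) (A.run g c s) t) =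
      A.step (g (s + t)) (A.run g c (s + t))
    rw [ih]

/-- The guessed letters are the digits of a number. -/
theorem exists_bits (ask g : ℕ → Bool) (τ u : ℕ) (hu : ∑ i ∈ range τ, (ask i).toNat ≤ u) :
    ∃ Y < 2 ^ u, ∀ t < τ, ask t = true →
      dig 2 Y (∑ i ∈ range t, (ask i).toNat) = (g t).toNat := by
  classical
  have hmono : ∀ s t : ℕ, s ≤ t →
      ∑ i ∈ range s, (ask i).toNat ≤ ∑ i ∈ range t, (ask i).toNat := fun s t h =>
    sum_le_sum_of_subset (range_mono h)
  have hlt : ∀ s t : ℕ, s < t → ask s = true →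
      ∑ i ∈ range s, (ask i).toNat < ∑ i ∈ range t, (ask i).toNat := by
    intro s t h ha
    have h1 := hmono (s + 1) t h
    rw [sum_range_succ, ha] at h1
    exact h1
  have huniq : ∀ s t : ℕ, ask s = true → ask t = true →
      ∑ i ∈ range s, (ask i).toNat = ∑ i ∈ range t, (ask i).toNat → s = t := by
    intro s t hs ht h
    rcases lt_trichotomy s t with h1 | h1 | h1
    · have := hlt s t h1 hs
      omega
    · exact h1
    · have := hlt t s h1 ht
      omega
  set en : ℕ → ℕ := fun j =>
    if h : ∃ t, ask t = true ∧ ∑ i ∈ range t, (ask i).toNat = j then (g h.choose).toNat else 0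
    with hen
  have hen2 : ∀ j < u, en j < 2 := by
    intro j _
    rw [hen]
    dsimp only
    split_ifs with h
    · have := Bool.toNat_lt (g h.choose)
      exact this
    · norm_num
  refine ⟨tab 2 u en, tab_lt hen2, fun t ht ha => ?_⟩
  rw [dig_tab hen2 (lt_of_lt_of_le (hlt t τ ht ha) hu)]
  have hex : ∃ s, ask s = true ∧
      ∑ i ∈ range s, (ask i).toNat = ∑ i ∈ range t, (ask i).toNat := ⟨t, ha, rfl⟩
  have h1 : en (∑ i ∈ range t, (ask i).toNat) = (g hex.choose).toNat := by
    rw [hen]
    exact dif_pos hex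
  rw [h1, huniq _ _ hex.choose_spec.1 ha hex.choose_spec.2]

theorem card_toNat (p : ℕ → Bool) (t t' : ℕ) :
    ∑ i ∈ range (t' - t), (p (t + i)).toNat = {i : ℕ | t ≤ i ∧ i < t' ∧ p i = true}.ncard := by
  classical
  have h1 : {i : ℕ | t ≤ i ∧ i < t' ∧ p i = true} =
      (((Ico t t').filter fun i => p i = true : Finset ℕ) : Set ℕ) := by
    ext i
    simp [and_assoc]
  rw [h1, Set.ncard_coe_finset, card_filter, sum_Ico_eq_sum_range]
  refine sum_congr rfl fun i _ => ?_
  cases p (t + i) <;> rfl

/-- Words and numbers. -/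
theorem exists_word {S a : ℕ} (h0 : a ≠ 0) (ha : a < 2 ^ (S + 1)) :
    ∃ i : List Bool, i.length ≤ S ∧ a = num i := by
  obtain ⟨i, hi⟩ := exists_num (Nat.pos_of_ne_zero h0)
  refine ⟨i, ?_, hi.symm⟩
  have h1 : 2 ^ i.length ≤ a := by
    have := Nat.pow_log_le_self 2 (num_pos i).ne'
    rwa [log_num, hi] at this
  have h2 : 2 ^ i.length < 2 ^ (S + 1) := lt_of_le_of_lt h1 ha
  have h3 := (Nat.pow_lt_pow_iff_right (by norm_num : 1 < 2)).1 h2
  omega

theorem ro_num {i : List Bool} (h : i.head? = some false) : Prm.ro (num i) = 1 := by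
  rcases i with _ | ⟨b, v⟩
  · simp at h
  · have hb : b = false := by simpa using h
    subst hb
    have h1 := num_pos v
    have h2 : num (false :: v) = 2 * num v := by
      show (false).toNat + 2 * num v = 2 * num v
      simp
    rw [h2]
    unfold Prm.ro lt01
    rw [if_pos (by omega)]
    omega

theorem eq_one {x y : ℕ} (h : x = y) : eq01 x y = 1 := if_pos h

theorem edc (hCMP : CMP_stmt) : EDC_stmt := by
  intro A w y P hCod hSV F X g r t₀ t₁ c d hF h01 h1r hfit hmsg hgs hbd hτV hc0 hRep hlive hd0 hd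
  classical
  set τ := t₁ - t₀ with hτ
  set g' : ℕ → Bool := fun i => g (t₀ + i) with hg'
  set f := A.conf w y g t₀ with hf
  have hrun : ∀ i, A.run g' f i = A.conf w y g (t₀ + i) := fun i => run_shift A g _ t₀ i
  have ht1 : t₀ + τ = t₁ := by omega
  -- the guessed letters
  have hsum : ∑ i ∈ range τ, (A.ask (A.run g' f i).1).toNat = A.guesses w y g t₀ t₁ := by
    have h := card_toNat (fun i => A.ask (A.conf w y g i).1) t₀ t₁
    rw [← hτ] at h
    unfold NBM.guesses
    rw [← h]
    exact sum_congr rfl fun i _ => by rw [hrun]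
  have hsum2 : ∑ i ∈ range τ, (A.ask (A.run g' f i).1).toNat ≤ P.u := hsum.le.trans hgs
  obtain ⟨Y, hY, hbits⟩ := exists_bits (fun i => A.ask (A.run g' f i).1) g' τ P.u hsum2
  -- the messages
  have hmsg2 : {t | t < τ ∧ A.msg (A.run g' f (t + 1)).1 = true}.ncard ≤ X := by
    refine le_trans ?_ hmsg
    unfold NBM.msgs
    refine Set.ncard_le_ncard_of_injOn (fun t => t₀ + t) ?_ ?_ ?_
    · rintro t ⟨h1, h2⟩
      refine ⟨by omega, by omega, ?_⟩
      rw [hrun] at h2
      exact h2
    · intro a _ b _ hab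
      dsimp only at hab
      omega
    · exact (Set.finite_Iio t₁).subset fun i hi => hi.2.1
  -- the known registers
  have hknown : ∀ t ≤ τ, ∀ i : List Bool, i.length ≤ P.S →
      A.Live w y g r (t₀ + t) i → Known A P c (A.run g' f) t i := by
    intro t ht i hi hl
    by_contra hK
    unfold Known at hK
    push Not at hK
    obtain ⟨k1, k2, k3⟩ := hK
    refine hlive i hi k1 ?_ k2
    obtain ⟨t', l1, l2, l3, l4⟩ := hl
    refine ⟨t', by omega, l2, l3, fun u hu1 hu2 => ?_⟩
    rcases Nat.lt_or_ge (t₀ + t) u with h | h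
    · exact l4 u h hu2
    · intro hh
      obtain ⟨v, rfl⟩ := Nat.exists_eq_add_of_lt hu1
      have h3 := k3 (v + 1) (by omega) (by omega)
      rw [hrun] at h3
      exact h3 hh.1 hh.2
  -- the checks
  have key : ∀ a < 2 ^ (P.S + 1),
      ifz a 1 (lt01 0 d * ((1 - Prm.ro a) * lt01 0 (P.cl d a))) ≠ 0 → F c d Y τ a = 1 := by
    intro a ha hne
    obtain ⟨m1, m2⟩ := hCMP A w y P hCod hSV c d a τ Y g' f hc0 hRep
      (fun t ht => by
        rw [hrun]
        exact hfit (t₀ + t) (by omega))
      (fun t ht => by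
        refine hknown t ht.le _ ?_ ?_
        · rw [hrun]
          exact (hfit (t₀ + t) (by omega)).2.1
        · refine ⟨t₀ + t, le_rfl, by omega, ?_, fun u h1 h2 => by omega⟩
          rw [hrun])
      hbits hsum2 hbd ha
      (fun h => by
        obtain ⟨h1, h2⟩ := hd0 h
        rw [hrun, ht1, h1]
        exact h2)
      (fun h => by
        obtain ⟨h1, h2, h3⟩ := hd h
        rcases h2 with ⟨e, _⟩ | ⟨_, e2, e3, e4, e5⟩
        · exact absurd e h
        refine ⟨?_, ?_⟩
        · rw [hrun, ht1]
          exact e2.symm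
        · by_cases h0 : a = 0
          · exact Or.inl h0
          right
          obtain ⟨i, hi, rfl⟩ := exists_word h0 ha
          unfold ifz at hne
          rw [if_neg h0] at hne
          have n1 := right_ne_zero_of_mul hne
          have n2 := left_ne_zero_of_mul n1
          have n3 := right_ne_zero_of_mul n1
          have n4 : i.head? ≠ some false := by
            intro hh
            rw [ro_num hh] at n2
            exact n2 rfl
          have n5 : P.cl d (num i) ≠ 0 := lt_ne.1 n3
          refine ⟨i, hi, rfl, ?_, ?_⟩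
          · refine hknown τ le_rfl i hi ?_
            rw [ht1]
            exact h3 i hi n4 n5
          · rw [hrun, ht1]
            exact (e5 i hi n4).resolve_left n5)
    exact hF c d Y τ a ha hτV m1 le_rfl (m2.trans hmsg2)
  have hbad : ∑ a ∈ range (2 ^ (P.S + 1)), bad P F c d Y τ a = 0 := by
    refine sum_eq_zero fun a ha => ?_
    unfold bad
    by_cases h : ifz a 1 (lt01 0 d * ((1 - Prm.ro a) * lt01 0 (P.cl d a))) = 0
    · rw [h]
      exact if_pos rfl
    · rw [key a (mem_range.1 ha) h, eq_one rfl]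
      unfold ifz
      split_ifs <;> rfl
  unfold edge
  have hX : lt01 0 c * (ifz d 1 (lt01 1 d * lt01 0 (P.cq d)) *
    lt01 0 (∑ Y ∈ range (2 ^ P.u), ∑ τ ∈ range (2 ^ P.V),
      eq01 (∑ a ∈ range (2 ^ (P.S + 1)), bad P F c d Y τ a) 0)) ≠ 0 := by
    refine Nat.mul_ne_zero (lt_ne.2 hc0) (Nat.mul_ne_zero ?_ (lt_ne.2 ?_))
    · by_cases h0 : d = 0
      · unfold ifz
        rw [if_pos h0]
        exact one_ne_zero
      · obtain ⟨h1, h2, _⟩ := hd h0
        unfold ifz
        rw [if_neg h0]
        refine Nat.mul_ne_zero ?_ (lt_ne.2 ?_)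
        · unfold lt01
          rw [if_pos (by omega)]
          exact one_ne_zero
        · rcases h2 with ⟨e, _⟩ | ⟨_, e2, _⟩
          · exact absurd e h0
          · rw [← e2]
            exact (num_pos _).ne'
    · intro h
      have h1 := (sum_eq_zero_iff.1 h) Y (mem_range.2 hY)
      have h2 := (sum_eq_zero_iff.1 h1) τ (mem_range.2 hτV)
      rw [eq_one hbad] at h2
      exact one_ne_zero h2
  omega

end Pool.Agent.Helper8.Sus
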